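import Mathlib
import Pool.Agent.R208.Wirtinger
import Pool.Agent.R208.PolarFlux
import Pool.Agent.R208.GrowthOde
import Pool.Agent.R208.Profile

/-!
# Square-root lower growth for minimal graphs

Every positive solution of the minimal surface equation with zero boundary values over a domain
which contains no circle `|z| = r`, `r > r₁` (for instance a domain bounded by a Jordan arc),
satisfies `M(r) ≥ C √r` for large `r`.
-/

set_option autoImplicit false

open MeasureTheory Set Filter intervalIntegral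
open scoped Topology Real
open Pool.Agent.R208 Pool.Agent.R208.PolarFlux Pool.Agent.R208.Profile

namespace Pool.Agent.Results.MP_41eeae_an.SqrtGrowth

/-- `∂u/∂x` -/
noncomputable def ux (u : ℂ → ℝ) (z : ℂ) : ℝ := fderiv ℝ u z 1

/-- `∂u/∂y` -/
noncomputable def uy (u : ℂ → ℝ) (z : ℂ) : ℝ := fderiv ℝ u z Complex.I

/-- `√(1 + |∇u|²)` -/
noncomputable def W (u : ℂ → ℝ) (z : ℂ) : ℝ := √(1 + (ux u z ^ 2 + uy u z ^ 2))

/-- `u` is a solution of the problem `(∗)` in `D`: `u ∈ C²(D) ∩ C(closure D)` satisfies the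
minimal surface equation in divergence form in `D`, `u > 0` in `D` and `u = 0` on the boundary. -/
structure IsSolution (D : Set ℂ) (u : ℂ → ℝ) : Prop where
  smooth : ContDiffOn ℝ 2 u D
  cont : ContinuousOn u (closure D)
  mse : ∀ z ∈ D, fderiv ℝ (fun w => ux u w / W u w) z 1
    + fderiv ℝ (fun w => uy u w / W u w) z Complex.I = 0
  pos : ∀ z ∈ D, 0 < u z
  bdry : ∀ z ∈ frontier D, u z = 0

/-- `M(r)`, the supremum of `u` on the part of the circle `|z| = r` in `D` (with the value `0` if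
the set of values is empty or unbounded). -/
noncomputable def M (D : Set ℂ) (u : ℂ → ℝ) (r : ℝ) : ℝ := sSup (u '' {z | z ∈ D ∧ ‖z‖ = r})

section aux

/-- the extension by zero of a solution -/
structure Ext (D : Set ℂ) (v : ℂ → ℝ) : Prop where
  op : IsOpen D
  cont : Continuous v
  smooth : ContDiffOn ℝ 2 v D
  mse : ∀ z ∈ D, fderiv ℝ (fun w => ux v w / W v w) z 1
    + fderiv ℝ (fun w => uy v w / W v w) z Complex.I = 0
  zero : ∀ z, z ∉ D → v z = 0
  nonneg : ∀ z, 0 ≤ v z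

variable {D : Set ℂ} {v : ℂ → ℝ} {c : ℝ}

lemma W_pos (v : ℂ → ℝ) (z : ℂ) : 0 < W v z := Real.sqrt_pos.2 (by positivity)

lemma W_sq (v : ℂ → ℝ) (z : ℂ) : W v z ^ 2 = 1 + (ux v z ^ 2 + uy v z ^ 2) :=
  Real.sq_sqrt (by positivity)

lemma Ext.contDiffAt_ux (h : Ext D v) {z : ℂ} (hz : z ∈ D) : ContDiffAt ℝ 1 (ux v) z := by
  have h1 : ContDiffAt ℝ 2 v z := h.smooth.contDiffAt (h.op.mem_nhds hz)
  have h2 : ContDiffAt ℝ 1 (fderiv ℝ v) z := h1.fderiv_right (by norm_num)
  exact h2.clm_apply contDiffAt_const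

lemma Ext.contDiffAt_uy (h : Ext D v) {z : ℂ} (hz : z ∈ D) : ContDiffAt ℝ 1 (uy v) z := by
  have h1 : ContDiffAt ℝ 2 v z := h.smooth.contDiffAt (h.op.mem_nhds hz)
  have h2 : ContDiffAt ℝ 1 (fderiv ℝ v) z := h1.fderiv_right (by norm_num)
  exact h2.clm_apply contDiffAt_const

lemma Ext.contDiffAt_W (h : Ext D v) {z : ℂ} (hz : z ∈ D) : ContDiffAt ℝ 1 (W v) z := by
  have h1 : ContDiffAt ℝ 1 (fun z => 1 + (ux v z ^ 2 + uy v z ^ 2)) z :=
    contDiffAt_const.add (((h.contDiffAt_ux hz).pow 2).add ((h.contDiffAt_uy hz).pow 2))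
  exact h1.sqrt (by positivity)

lemma Ext.small (h : Ext D v) (hc : 0 < c) {z : ℂ} (hz : z ∉ D) : ∀ᶠ w in 𝓝 z, v w ≤ c := by
  have h1 : v z < c := by rw [h.zero z hz]; exact hc
  filter_upwards [h.cont.continuousAt.eventually_lt continuousAt_const h1] with w hw
  exact hw.le

/-- the components of the vector field `g(v) ∇v / W` -/
noncomputable def F1 (c : ℝ) (v : ℂ → ℝ) (z : ℂ) : ℝ := g c (v z) * (ux v z / W v z)
@[inherit_doc F1]
noncomputable def F2 (c : ℝ) (v : ℂ → ℝ) (z : ℂ) : ℝ := g c (v z) * (uy v z / W v z)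

lemma Ext.contDiffAt_g (h : Ext D v) (c : ℝ) {z : ℂ} (hz : z ∈ D) :
    ContDiffAt ℝ 1 (fun z => g c (v z)) z := by
  have h1 : ContDiffAt ℝ 1 v z := (h.smooth.contDiffAt (h.op.mem_nhds hz)).of_le (by norm_num)
  exact (contDiff_g c).contDiffAt.comp z h1

lemma Ext.contDiff_F1 (h : Ext D v) (hc : 0 < c) : ContDiff ℝ 1 (F1 c v) := by
  rw [contDiff_iff_contDiffAt]
  intro z
  by_cases hz : z ∈ D
  · exact (h.contDiffAt_g c hz).mul ((h.contDiffAt_ux hz).div (h.contDiffAt_W hz) (W_pos v z).ne')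
  · refine (contDiffAt_const (c := (0 : ℝ))).congr_of_eventuallyEq ?_
    filter_upwards [h.small hc hz] with w hw
    rw [F1, g_zero hw, zero_mul]

lemma Ext.contDiff_F2 (h : Ext D v) (hc : 0 < c) : ContDiff ℝ 1 (F2 c v) := by
  rw [contDiff_iff_contDiffAt]
  intro z
  by_cases hz : z ∈ D
  · exact (h.contDiffAt_g c hz).mul ((h.contDiffAt_uy hz).div (h.contDiffAt_W hz) (W_pos v z).ne')
  · refine (contDiffAt_const (c := (0 : ℝ))).congr_of_eventuallyEq ?_
    filter_upwards [h.small hc hz] with w hw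
    rw [F2, g_zero hw, zero_mul]

lemma Ext.div_eq (h : Ext D v) (hc : 0 < c) (z : ℂ) :
    fderiv ℝ (F1 c v) z 1 + fderiv ℝ (F2 c v) z Complex.I
      = k c (v z) ^ 2 * ((ux v z ^ 2 + uy v z ^ 2) / W v z) := by
  by_cases hz : z ∈ D
  · have hv : DifferentiableAt ℝ v z :=
      (h.smooth.contDiffAt (h.op.mem_nhds hz)).differentiableAt (by norm_num)
    have hg : HasFDerivAt (fun z => g c (v z)) (k c (v z) ^ 2 • fderiv ℝ v z) z :=
      (hasDerivAt_g c (v z)).comp_hasFDerivAt z hv.hasFDerivAt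
    have h1 : DifferentiableAt ℝ (fun w => ux v w / W v w) z :=
      ((h.contDiffAt_ux hz).div (h.contDiffAt_W hz) (W_pos v z).ne').differentiableAt
        (by norm_num)
    have h2 : DifferentiableAt ℝ (fun w => uy v w / W v w) z :=
      ((h.contDiffAt_uy hz).div (h.contDiffAt_W hz) (W_pos v z).ne').differentiableAt
        (by norm_num)
    have e1 : HasFDerivAt (F1 c v) _ z := hg.mul h1.hasFDerivAt
    have e2 : HasFDerivAt (F2 c v) _ z := hg.mul h2.hasFDerivAt
    rw [e1.fderiv, e2.fderiv]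
    have e3 := h.mse z hz
    have e4 : fderiv ℝ v z 1 = ux v z := rfl
    have e5 : fderiv ℝ v z Complex.I = uy v z := rfl
    simp only [add_apply, smul_apply, smul_eq_mul, e4, e5]
    linear_combination g c (v z) * e3
  · have h1 : F1 c v =ᶠ[𝓝 z] fun _ => 0 := by
      filter_upwards [h.small hc hz] with w hw
      rw [F1, g_zero hw, zero_mul]
    have h2 : F2 c v =ᶠ[𝓝 z] fun _ => 0 := by
      filter_upwards [h.small hc hz] with w hw
      rw [F2, g_zero hw, zero_mul]
    rw [h1.fderiv_eq, h2.fderiv_eq, h.zero z hz, k_zero hc.le]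
    simp

/-- radial derivative on the circle -/
noncomputable def P (v : ℂ → ℝ) (s θ : ℝ) : ℝ :=
  Real.cos θ * ux v (pt s θ) + Real.sin θ * uy v (pt s θ)

/-- tangential derivative on the circle -/
noncomputable def Q (v : ℂ → ℝ) (s θ : ℝ) : ℝ :=
  -Real.sin θ * ux v (pt s θ) + Real.cos θ * uy v (pt s θ)

lemma PQ (v : ℂ → ℝ) (s θ : ℝ) :
    P v s θ ^ 2 + Q v s θ ^ 2 = ux v (pt s θ) ^ 2 + uy v (pt s θ) ^ 2 := by
  have := Real.sin_sq_add_cos_sq θ
  unfold P Q
  linear_combination (ux v (pt s θ) ^ 2 + uy v (pt s θ) ^ 2) * this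

noncomputable def E (c : ℝ) (v : ℂ → ℝ) (s : ℝ) : ℝ := flux (F1 c v) (F2 c v) s

noncomputable def A (c : ℝ) (v : ℂ → ℝ) (s : ℝ) : ℝ := divInt (F1 c v) (F2 c v) s

lemma E_eq (c : ℝ) (v : ℂ → ℝ) (s : ℝ) : E c v s
    = ∫ θ in (0 : ℝ)..(2 * π), s * (g c (v (pt s θ)) * (P v s θ / W v (pt s θ))) := by
  unfold E flux
  congr 1
  ext θ
  unfold F1 F2 P
  ring

lemma Ext.A_eq (h : Ext D v) (hc : 0 < c) (s : ℝ) : A c v s
    = ∫ θ in (0 : ℝ)..(2 * π), s * (k c (v (pt s θ)) ^ 2 * ((P v s θ ^ 2 + Q v s θ ^ 2)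
      / W v (pt s θ))) := by
  unfold A divInt
  congr 1
  ext θ
  rw [h.div_eq hc, PQ]

lemma Ext.hasDerivAt_E (h : Ext D v) (hc : 0 < c) (s : ℝ) : HasDerivAt (E c v) (A c v s) s :=
  hasDerivAt_flux (h.contDiff_F1 hc) (h.contDiff_F2 hc) s

lemma E_zero (c : ℝ) (v : ℂ → ℝ) : E c v 0 = 0 := by
  rw [E_eq]
  simp

lemma Ext.A_nonneg (h : Ext D v) (hc : 0 < c) {s : ℝ} (hs : 0 ≤ s) : 0 ≤ A c v s := by
  rw [h.A_eq hc]
  apply intervalIntegral.integral_nonneg (by positivity)
  intro θ _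
  have := W_pos v (pt s θ)
  positivity

/-- continuity of functions on the circle -/
lemma Ext.cont_circle (h : Ext D v) (hc : 0 < c) {a : ℝ → ℝ} (ha : Continuous a)
    (ha0 : ∀ t, t ≤ c → a t = 0) {b : ℝ × ℝ × ℝ → ℝ} (hb : Continuous b) (s : ℝ) :
    Continuous fun θ => a (v (pt s θ)) * b (θ, ux v (pt s θ), uy v (pt s θ)) := by
  have hpt : Continuous (pt s) := continuous_pt.comp (Continuous.prodMk_right s)
  rw [continuous_iff_continuousAt]
  intro θ
  by_cases hz : pt s θ ∈ D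
  · have h1 : ContinuousAt (fun θ => ux v (pt s θ)) θ :=
      ContinuousAt.comp (g := ux v) (h.contDiffAt_ux hz).continuousAt hpt.continuousAt
    have h2 : ContinuousAt (fun θ => uy v (pt s θ)) θ :=
      ContinuousAt.comp (g := uy v) (h.contDiffAt_uy hz).continuousAt hpt.continuousAt
    have h3 : ContinuousAt (fun θ => b (θ, ux v (pt s θ), uy v (pt s θ))) θ :=
      ContinuousAt.comp (g := b) hb.continuousAt (continuousAt_id.prodMk (h1.prodMk h2))
    exact (ha.comp (h.cont.comp hpt)).continuousAt.mul h3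
  · refine (continuousAt_const (y := (0 : ℝ))).congr ?_
    filter_upwards [hpt.continuousAt.eventually (h.small hc hz)] with w hw
    rw [ha0 _ hw, zero_mul]

/-- the angular derivative of `f(v)` -/
lemma Ext.hasDerivAt_f (h : Ext D v) (hc : 0 < c) (s θ : ℝ) :
    HasDerivAt (fun θ => f c (v (pt s θ))) (d c (v (pt s θ)) * (s * Q v s θ)) θ := by
  by_cases hz : pt s θ ∈ D
  · have hv : DifferentiableAt ℝ v (pt s θ) :=
      (h.smooth.contDiffAt (h.op.mem_nhds hz)).differentiableAt (by norm_num)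
    exact HasDerivAt.comp (h₂ := f c) (h := fun θ => v (pt s θ)) θ
      (Profile.hasDerivAt_f c (v (pt s θ))) (hasDerivAt_right hv)
  · have hpt : Continuous (pt s) := continuous_pt.comp (Continuous.prodMk_right s)
    rw [h.zero _ hz, d_zero hc.le, zero_mul]
    refine (hasDerivAt_const θ (0 : ℝ)).congr_of_eventuallyEq ?_
    filter_upwards [hpt.continuousAt.eventually (h.small hc hz)] with w hw
    rw [f_zero hw]

/-- the radial derivative of `g(v)` -/
lemma Ext.hasDerivAt_gv (h : Ext D v) (hc : 0 < c) (s θ : ℝ) :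
    HasDerivAt (fun s => g c (v (pt s θ))) (k c (v (pt s θ)) ^ 2 * P v s θ) s := by
  by_cases hz : pt s θ ∈ D
  · have hv : DifferentiableAt ℝ v (pt s θ) :=
      (h.smooth.contDiffAt (h.op.mem_nhds hz)).differentiableAt (by norm_num)
    exact HasDerivAt.comp (h₂ := g c) (h := fun s => v (pt s θ)) s
      (Profile.hasDerivAt_g c (v (pt s θ))) (hasDerivAt_left hv)
  · have hpt : Continuous fun s => pt s θ := continuous_pt.comp (Continuous.prodMk_left θ)
    rw [h.zero _ hz, k_zero hc.le]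
    simp only [ne_eq, OfNat.ofNat_ne_zero, not_false_eq_true, zero_pow, zero_mul]
    refine (hasDerivAt_const s (0 : ℝ)).congr_of_eventuallyEq ?_
    filter_upwards [hpt.continuousAt.eventually (h.small hc hz)] with w hw
    rw [g_zero hw]

/-! ### pointwise inequalities -/

/-- the length element of the curve -/
noncomputable def T (v : ℂ → ℝ) (s θ : ℝ) : ℝ := √(1 + Q v s θ ^ 2)

lemma T_sq (v : ℂ → ℝ) (s θ : ℝ) : T v s θ ^ 2 = 1 + Q v s θ ^ 2 := Real.sq_sqrt (by positivity)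

lemma one_le_T (v : ℂ → ℝ) (s θ : ℝ) : 1 ≤ T v s θ := by
  rw [T, Real.one_le_sqrt]
  nlinarith [sq_nonneg (Q v s θ)]

lemma W_sq' (v : ℂ → ℝ) (s θ : ℝ) : W v (pt s θ) ^ 2 = 1 + (P v s θ ^ 2 + Q v s θ ^ 2) := by
  rw [W_sq, PQ]

lemma T_le_W (v : ℂ → ℝ) (s θ : ℝ) : T v s θ ≤ W v (pt s θ) := by
  apply Real.sqrt_le_sqrt
  rw [← PQ]
  nlinarith [sq_nonneg (P v s θ)]

lemma pointwise1 (v : ℂ → ℝ) (s θ : ℝ) :
    Q v s θ ^ 2 / T v s θ + P v s θ ^ 2 / (W v (pt s θ) ^ 2 * T v s θ)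
      ≤ (P v s θ ^ 2 + Q v s θ ^ 2) / W v (pt s θ) := by
  have h1 := one_le_T v s θ
  have h2 := T_le_W v s θ
  have h3 := T_sq v s θ
  have h4 := W_sq' v s θ
  have h5 : Q v s θ ^ 2 = T v s θ ^ 2 - 1 := by linarith
  have h6 : P v s θ ^ 2 = W v (pt s θ) ^ 2 - T v s θ ^ 2 := by linarith
  rw [h5, h6]
  generalize T v s θ = t at *
  generalize W v (pt s θ) = w at *
  have ht : 0 < t := by linarith
  have hw : 0 < w := by linarith
  have h7 : (w ^ 2 - t ^ 2 + (t ^ 2 - 1)) / w - ((t ^ 2 - 1) / t + (w ^ 2 - t ^ 2) / (w ^ 2 * t))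
      = (w - t) * ((w ^ 2 - 1) / w ^ 2) := by
    field_simp
    ring
  have h8 : 0 ≤ (w - t) * ((w ^ 2 - 1) / w ^ 2) := by
    apply mul_nonneg (by linarith)
    apply div_nonneg _ (by positivity)
    nlinarith
  linarith

lemma pointwise2 (v : ℂ → ℝ) (s θ : ℝ) :
    T v s θ - 1 ≤ (P v s θ ^ 2 + Q v s θ ^ 2) / W v (pt s θ) := by
  have h1 := one_le_T v s θ
  have h2 := T_le_W v s θ
  have h4 := W_sq' v s θ
  have h6 : P v s θ ^ 2 + Q v s θ ^ 2 = W v (pt s θ) ^ 2 - 1 := by linarith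
  rw [h6]
  generalize T v s θ = t at *
  generalize W v (pt s θ) = w at *
  have hw : 0 < w := by linarith
  rw [le_div_iff₀ hw]
  nlinarith

lemma P_div_sq (v : ℂ → ℝ) (s θ : ℝ) : (P v s θ / W v (pt s θ)) ^ 2 ≤ 1 := by
  have h1 := W_pos v (pt s θ)
  rw [div_pow, div_le_one (by positivity), W_sq']
  nlinarith [sq_nonneg (Q v s θ)]

lemma P_div_le (v : ℂ → ℝ) (s θ : ℝ) : P v s θ / W v (pt s θ) ≤ 1 := by
  have := P_div_sq v s θ
  nlinarith [sq_nonneg (P v s θ / W v (pt s θ) - 1)]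

lemma P_div_sq' (v : ℂ → ℝ) (s θ : ℝ) :
    (P v s θ / W v (pt s θ)) ^ 2 ≤ (P v s θ ^ 2 + Q v s θ ^ 2) / W v (pt s θ) := by
  have h1 := W_pos v (pt s θ)
  have h2 : 1 ≤ W v (pt s θ) := (one_le_T v s θ).trans (T_le_W v s θ)
  rw [div_pow, div_le_div_iff₀ (by positivity) h1]
  have h3 : W v (pt s θ) ≤ W v (pt s θ) ^ 2 := by nlinarith
  have h4 := sq_nonneg (P v s θ)
  have h5 := sq_nonneg (Q v s θ)
  calc P v s θ ^ 2 * W v (pt s θ) ≤ (P v s θ ^ 2 + Q v s θ ^ 2) * W v (pt s θ) := by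
        apply mul_le_mul_of_nonneg_right _ h1.le
        linarith
    _ ≤ (P v s θ ^ 2 + Q v s θ ^ 2) * W v (pt s θ) ^ 2 := by
        apply mul_le_mul_of_nonneg_left h3 (by positivity)

/-- the cutoff -/
noncomputable def χ (a b t : ℝ) : ℝ := min 1 (k b t ^ 2 / k b a ^ 2)

/-- the modified length element -/
noncomputable def R (a b : ℝ) (v : ℂ → ℝ) (s θ : ℝ) : ℝ := 1 + χ a b (v (pt s θ)) * (T v s θ - 1)

lemma χ_nonneg (a b t : ℝ) : 0 ≤ χ a b t := le_min zero_le_one (by positivity)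

lemma χ_one {a b t : ℝ} (hb : b < a) (h : a ≤ t) : χ a b t = 1 := by
  have h1 := k_pos hb
  apply min_eq_left
  rw [one_le_div (by positivity)]
  have := k_mono (c := b) h
  gcongr

lemma χ_zero {a b t : ℝ} (h : t ≤ b) : χ a b t = 0 := by
  unfold χ
  rw [k_zero h]
  simp

lemma continuous_χ (a b : ℝ) : Continuous (χ a b) :=
  continuous_const.min (((continuous_k b).pow 2).div_const _)

lemma one_le_R (a b : ℝ) (v : ℂ → ℝ) (s θ : ℝ) : 1 ≤ R a b v s θ := by
  have h1 := one_le_T v s θ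
  have h2 := χ_nonneg a b (v (pt s θ))
  unfold R
  nlinarith

lemma Ext.continuous_R (h : Ext D v) {a b : ℝ} (hb : 0 < b) (s : ℝ) :
    Continuous (R a b v s) := by
  have h1 := h.cont_circle hb (continuous_χ a b) (fun t ht => χ_zero ht)
    (b := fun x => √(1 + (-Real.sin x.1 * x.2.1 + Real.cos x.1 * x.2.2) ^ 2) - 1)
    (by fun_prop) s
  exact continuous_const.add h1

lemma R_le {a b : ℝ} (hab : b < a) (v : ℂ → ℝ) (s θ : ℝ) : R a b v s θ
    ≤ 1 + k b (v (pt s θ)) ^ 2 * ((P v s θ ^ 2 + Q v s θ ^ 2) / W v (pt s θ)) / k b a ^ 2 := by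
  have h1 := k_pos hab
  have h2 := pointwise2 v s θ
  have h3 := one_le_T v s θ
  have h4 : χ a b (v (pt s θ)) ≤ k b (v (pt s θ)) ^ 2 / k b a ^ 2 := min_le_right _ _
  unfold R
  have h5 : χ a b (v (pt s θ)) * (T v s θ - 1) ≤ k b (v (pt s θ)) ^ 2 / k b a ^ 2 *
      ((P v s θ ^ 2 + Q v s θ ^ 2) / W v (pt s θ)) := by
    apply mul_le_mul h4 h2 (by linarith) (by positivity)
  calc _ ≤ _ := add_le_add_right h5 1
    _ = _ := by ring

/-- the basic differential inequality -/
lemma Ext.ineq1 (h : Ext D v) {a b : ℝ} (hb : 0 < b) (hab : b < a) {s θ₀ : ℝ} (hs : 0 < s)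
    (h0 : v (pt s θ₀) = 0) :
    E a v s ≤ (s + A b v s / k b a ^ 2 / (2 * π)) * A a v s := by
  have ha : 0 < a := hb.trans hab
  have hpi := Real.pi_pos
  have hpt : Continuous (pt s) := continuous_pt.comp (Continuous.prodMk_right s)
  have hRc := h.continuous_R (a := a) hb s
  set L : ℝ := ∫ θ in (0 : ℝ)..(2 * π), s * R a b v s θ with hL
  have hL0 : 0 < L := intervalIntegral.intervalIntegral_pos_of_pos
    ((continuous_const.mul hRc).intervalIntegrable _ _)
    (fun θ => mul_pos hs (by linarith [one_le_R a b v s θ])) (by positivity)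
  have hkb := k_pos hab
  -- the integrands
  have c1 : Continuous fun θ => s * (g a (v (pt s θ)) * (P v s θ / W v (pt s θ))) := by
    refine continuous_const.mul (h.cont_circle ha (continuous_g a) (fun t ht => g_zero ht)
      (b := fun x => (Real.cos x.1 * x.2.1 + Real.sin x.1 * x.2.2)
        / √(1 + (x.2.1 ^ 2 + x.2.2 ^ 2))) ?_ s)
    exact Continuous.div (by fun_prop) (by fun_prop)
      fun x => (Real.sqrt_pos.2 (by positivity)).ne'
  have c2 : ∀ c, 0 < c → Continuous fun θ => s * (k c (v (pt s θ)) ^ 2 *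
      ((P v s θ ^ 2 + Q v s θ ^ 2) / W v (pt s θ))) := by
    intro c hc
    refine continuous_const.mul (h.cont_circle hc ((continuous_k c).pow 2)
      (fun t ht => by simp [k_zero ht])
      (b := fun x => ((Real.cos x.1 * x.2.1 + Real.sin x.1 * x.2.2) ^ 2
        + (-Real.sin x.1 * x.2.1 + Real.cos x.1 * x.2.2) ^ 2)
        / √(1 + (x.2.1 ^ 2 + x.2.2 ^ 2))) ?_ s)
    exact Continuous.div (by fun_prop) (by fun_prop)
      fun x => (Real.sqrt_pos.2 (by positivity)).ne'
  have c3 : Continuous fun θ => f a (v (pt s θ)) := (continuous_f a).comp (h.cont.comp hpt)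
  have c4 : Continuous fun θ => d a (v (pt s θ)) * (s * Q v s θ) :=
    h.cont_circle ha (continuous_d a) (fun t ht => d_zero ht)
      (b := fun x => s * (-Real.sin x.1 * x.2.1 + Real.cos x.1 * x.2.2)) (by fun_prop) s
  have c5 : Continuous fun θ => k a (v (pt s θ)) ^ 2 * (P v s θ / W v (pt s θ)) ^ 2 := by
    refine h.cont_circle ha ((continuous_k a).pow 2)
      (fun t ht => by simp [k_zero ht])
      (b := fun x => ((Real.cos x.1 * x.2.1 + Real.sin x.1 * x.2.2)
        / √(1 + (x.2.1 ^ 2 + x.2.2 ^ 2))) ^ 2) ?_ s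
    exact (Continuous.div (by fun_prop) (by fun_prop)
      fun x => (Real.sqrt_pos.2 (by positivity)).ne').pow 2
  have c6 : Continuous fun θ => f a (v (pt s θ)) ^ 2 * (s * R a b v s θ) :=
    (c3.pow 2).mul (continuous_const.mul hRc)
  have hR0 : ∀ θ, 0 < R a b v s θ := fun θ => by linarith [one_le_R a b v s θ]
  have c7 : Continuous fun θ => (d a (v (pt s θ)) * (s * Q v s θ)) ^ 2 / (s * R a b v s θ) :=
    (c4.pow 2).div (continuous_const.mul hRc) fun θ => (mul_pos hs (hR0 θ)).ne'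
  have c8 : Continuous fun θ => s * ((k a (v (pt s θ)) ^ 2 * (P v s θ / W v (pt s θ)) ^ 2)
      / R a b v s θ) :=
    continuous_const.mul (c5.div hRc fun θ => (hR0 θ).ne')
  -- Wirtinger
  have hw := Wirtinger.wirtinger (a := θ₀) (b := θ₀ + 2 * π) (by linarith)
    (f := fun θ => f a (v (pt s θ))) (f' := fun θ => d a (v (pt s θ)) * (s * Q v s θ))
    (ρ := fun θ => s * R a b v s θ) (fun θ => h.hasDerivAt_f ha s θ) c4
    (continuous_const.mul hRc) (fun θ => mul_pos hs (hR0 θ)) (by rw [h0, f_zero ha.le])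
    (by rw [pt_periodic s θ₀, h0, f_zero ha.le])
  have hcos : ∀ θ, Real.cos (θ + 2 * π) = Real.cos θ := Real.cos_periodic
  have hsin : ∀ θ, Real.sin (θ + 2 * π) = Real.sin θ := Real.sin_periodic
  have hptp : ∀ θ, pt s (θ + 2 * π) = pt s θ := pt_periodic s
  have hRp : ∀ θ, R a b v s (θ + 2 * π) = R a b v s θ := by
    intro θ
    simp only [R, T, Q, hcos, hsin, hptp]
  have hQp : ∀ θ, Q v s (θ + 2 * π) = Q v s θ := by
    intro θ
    simp only [Q, hcos, hsin, hptp]
  have p1 : Function.Periodic (fun θ => s * R a b v s θ) (2 * π) := by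
    intro θ
    simp only [hRp]
  have p2 : Function.Periodic (fun θ => f a (v (pt s θ)) ^ 2 * (s * R a b v s θ)) (2 * π) := by
    intro θ
    simp only [hRp, hptp]
  have p3 : Function.Periodic
      (fun θ => (d a (v (pt s θ)) * (s * Q v s θ)) ^ 2 / (s * R a b v s θ)) (2 * π) := by
    intro θ
    simp only [hRp, hptp, hQp]
  rw [p1.intervalIntegral_add_eq θ₀ 0, p2.intervalIntegral_add_eq θ₀ 0,
    p3.intervalIntegral_add_eq θ₀ 0, zero_add, ← hL] at hw
  -- the bound for `L`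
  have hLle : L ≤ 2 * π * s + A b v s / k b a ^ 2 := by
    have j1 : Continuous fun θ => (s + s * (k b (v (pt s θ)) ^ 2 *
        ((P v s θ ^ 2 + Q v s θ ^ 2) / W v (pt s θ))) / k b a ^ 2) :=
      continuous_const.add ((c2 b hb).div_const _)
    have h1 : L ≤ ∫ θ in (0 : ℝ)..(2 * π), (s + s * (k b (v (pt s θ)) ^ 2 *
        ((P v s θ ^ 2 + Q v s θ ^ 2) / W v (pt s θ))) / k b a ^ 2) := by
      apply intervalIntegral.integral_mono_on (by positivity)
        ((continuous_const.mul hRc).intervalIntegrable _ _)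
        (j1.intervalIntegrable _ _)
      intro θ _
      calc s * R a b v s θ ≤ s * _ := mul_le_mul_of_nonneg_left (R_le hab v s θ) hs.le
        _ = _ := by ring
    rw [intervalIntegral.integral_add (continuous_const.intervalIntegrable _ _)
      (((c2 b hb).div_const _).intervalIntegrable _ _), intervalIntegral.integral_div,
      ← h.A_eq hb] at h1
    simpa using h1
  -- combine
  set l : ℝ := π / L with hl
  have hl0 : 0 < l := div_pos hpi hL0
  have j2 : Continuous fun θ => l / 2 * (f a (v (pt s θ)) ^ 2 * (s * R a b v s θ)) :=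
    continuous_const.mul c6
  have j3 : Continuous fun θ => 1 / (2 * l) * (s * ((k a (v (pt s θ)) ^ 2 *
      (P v s θ / W v (pt s θ)) ^ 2) / R a b v s θ)) := continuous_const.mul c8
  have j4 : Continuous fun θ => (l / 2 * (f a (v (pt s θ)) ^ 2 * (s * R a b v s θ))
      + 1 / (2 * l) * (s * ((k a (v (pt s θ)) ^ 2 * (P v s θ / W v (pt s θ)) ^ 2)
      / R a b v s θ))) := j2.add j3
  have hE : E a v s ≤ ∫ θ in (0 : ℝ)..(2 * π), (l / 2 * (f a (v (pt s θ)) ^ 2 * (s * R a b v s θ))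
      + 1 / (2 * l) * (s * ((k a (v (pt s θ)) ^ 2 * (P v s θ / W v (pt s θ)) ^ 2)
      / R a b v s θ))) := by
    rw [E_eq]
    apply intervalIntegral.integral_mono_on (by positivity) (c1.intervalIntegrable _ _)
      (j4.intervalIntegrable _ _)
    intro θ _
    rw [g_eq]
    have hr := hR0 θ
    generalize R a b v s θ = r at *
    generalize f a (v (pt s θ)) = x at *
    generalize k a (v (pt s θ)) = y at *
    generalize P v s θ / W v (pt s θ) = w at *
    have e1 : l / 2 * (x ^ 2 * (s * r)) + 1 / (2 * l) * (s * (y ^ 2 * w ^ 2 / r))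
        - s * (x * y * w) = s * (l * r * x - y * w) ^ 2 / (2 * l * r) := by
      field_simp
      ring
    have e2 : 0 ≤ s * (l * r * x - y * w) ^ 2 / (2 * l * r) := by positivity
    linarith
  rw [intervalIntegral.integral_add (j2.intervalIntegrable _ _)
    (j3.intervalIntegrable _ _), intervalIntegral.integral_const_mul,
    intervalIntegral.integral_const_mul] at hE
  have hE2 : l / 2 * (∫ θ in (0 : ℝ)..(2 * π), f a (v (pt s θ)) ^ 2 * (s * R a b v s θ))
      ≤ 1 / (2 * l) * ∫ θ in (0 : ℝ)..(2 * π),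
        (d a (v (pt s θ)) * (s * Q v s θ)) ^ 2 / (s * R a b v s θ) := by
    have e9 : ∀ X : ℝ, l / 2 * X = 1 / (2 * l) * (l ^ 2 * X) := fun X => by field_simp
    rw [e9]
    exact mul_le_mul_of_nonneg_left hw (by positivity)
  have hsum : (∫ θ in (0 : ℝ)..(2 * π),
        (d a (v (pt s θ)) * (s * Q v s θ)) ^ 2 / (s * R a b v s θ))
      + (∫ θ in (0 : ℝ)..(2 * π), s * ((k a (v (pt s θ)) ^ 2 * (P v s θ / W v (pt s θ)) ^ 2)
      / R a b v s θ)) ≤ A a v s := by
    rw [h.A_eq ha, ← intervalIntegral.integral_add (c7.intervalIntegrable _ _)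
      (c8.intervalIntegrable _ _)]
    have j5 : Continuous fun θ => ((d a (v (pt s θ)) * (s * Q v s θ)) ^ 2 / (s * R a b v s θ)
      + s * ((k a (v (pt s θ)) ^ 2 * (P v s θ / W v (pt s θ)) ^ 2) / R a b v s θ)) := c7.add c8
    apply intervalIntegral.integral_mono_on (by positivity)
      (j5.intervalIntegrable _ _) ((c2 a ha).intervalIntegrable _ _)
    intro θ _
    by_cases hva : v (pt s θ) ≤ a
    · rw [d_zero hva, k_zero hva]
      simp
    · push Not at hva
      have e1 : R a b v s θ = T v s θ := by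
        rw [R, χ_one hab hva.le]
        ring
      rw [e1]
      have e2 := pointwise1 v s θ
      have e3 := d_le a (v (pt s θ))
      have e4 := d_nonneg a (v (pt s θ))
      have e5 := one_le_T v s θ
      have e6 := W_pos v (pt s θ)
      have e7 : (d a (v (pt s θ)) * (s * Q v s θ)) ^ 2 / (s * T v s θ)
          = s * (d a (v (pt s θ)) ^ 2 * (Q v s θ ^ 2 / T v s θ)) := by
        field_simp
      have e8 : s * (k a (v (pt s θ)) ^ 2 * (P v s θ / W v (pt s θ)) ^ 2 / T v s θ)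
          = s * (k a (v (pt s θ)) ^ 2 * (P v s θ ^ 2 / (W v (pt s θ) ^ 2 * T v s θ))) := by
        field_simp
      rw [e7, e8, ← mul_add]
      apply mul_le_mul_of_nonneg_left _ hs.le
      calc _ ≤ k a (v (pt s θ)) ^ 2 * (Q v s θ ^ 2 / T v s θ)
            + k a (v (pt s θ)) ^ 2 * (P v s θ ^ 2 / (W v (pt s θ) ^ 2 * T v s θ)) := by
            gcongr
        _ = k a (v (pt s θ)) ^ 2 * (Q v s θ ^ 2 / T v s θ
            + P v s θ ^ 2 / (W v (pt s θ) ^ 2 * T v s θ)) := by ring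
        _ ≤ _ := mul_le_mul_of_nonneg_left e2 (by positivity)
  have hfin : E a v s ≤ 1 / (2 * l) * A a v s := by
    calc E a v s ≤ _ := hE
      _ ≤ 1 / (2 * l) * _ + 1 / (2 * l) * _ := add_le_add_left hE2 _
      _ ≤ 1 / (2 * l) * A a v s := by
        rw [← mul_add]
        exact mul_le_mul_of_nonneg_left hsum (by positivity)
  refine hfin.trans (mul_le_mul_of_nonneg_right ?_ (h.A_nonneg ha hs.le))
  have : 1 / (2 * l) = L / (2 * π) := by
    rw [hl]
    field_simp
  rw [this, div_le_iff₀ (by positivity)]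
  calc L ≤ _ := hLle
    _ = _ := by field_simp

lemma Ext.cont1 (h : Ext D v) {c : ℝ} (hc : 0 < c) (s : ℝ) :
    Continuous fun θ => s * (g c (v (pt s θ)) * (P v s θ / W v (pt s θ))) := by
  refine continuous_const.mul (h.cont_circle hc (continuous_g c) (fun t ht => g_zero ht)
    (b := fun x => (Real.cos x.1 * x.2.1 + Real.sin x.1 * x.2.2)
      / √(1 + (x.2.1 ^ 2 + x.2.2 ^ 2))) ?_ s)
  exact Continuous.div (by fun_prop) (by fun_prop)
    fun x => (Real.sqrt_pos.2 (by positivity)).ne'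

lemma Ext.cont2 (h : Ext D v) {c : ℝ} (hc : 0 < c) (s : ℝ) :
    Continuous fun θ => s * (k c (v (pt s θ)) ^ 2 *
      ((P v s θ ^ 2 + Q v s θ ^ 2) / W v (pt s θ))) := by
  refine continuous_const.mul (h.cont_circle hc ((continuous_k c).pow 2)
    (fun t ht => by simp [k_zero ht])
    (b := fun x => ((Real.cos x.1 * x.2.1 + Real.sin x.1 * x.2.2) ^ 2
      + (-Real.sin x.1 * x.2.1 + Real.cos x.1 * x.2.2) ^ 2)
      / √(1 + (x.2.1 ^ 2 + x.2.2 ^ 2))) ?_ s)
  exact Continuous.div (by fun_prop) (by fun_prop)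
    fun x => (Real.sqrt_pos.2 (by positivity)).ne'

/-- the energy is controlled by the maximum on the circle -/
lemma Ext.ineq2 (h : Ext D v) {a : ℝ} (ha : 0 < a) {s m : ℝ} (hs : 0 < s) (hm : 0 < m)
    (hv : ∀ θ, v (pt s θ) ≤ m) (hE : 0 < E a v s) :
    E a v s ^ 2 ≤ 2 * π * s * m ^ 2 * A a v s := by
  have hpi := Real.pi_pos
  set l : ℝ := E a v s / (2 * π * s * m ^ 2) with hl
  have hl0 : 0 < l := by positivity
  have j1 : Continuous fun θ => (l / 2 * (s * m ^ 2) + 1 / (2 * l) * (s * (k a (v (pt s θ)) ^ 2 *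
      ((P v s θ ^ 2 + Q v s θ ^ 2) / W v (pt s θ))))) :=
    continuous_const.add (continuous_const.mul (h.cont2 ha s))
  have h1 : E a v s ≤ ∫ θ in (0 : ℝ)..(2 * π), (l / 2 * (s * m ^ 2)
      + 1 / (2 * l) * (s * (k a (v (pt s θ)) ^ 2 *
      ((P v s θ ^ 2 + Q v s θ ^ 2) / W v (pt s θ))))) := by
    rw [E_eq]
    apply intervalIntegral.integral_mono_on (by positivity) ((h.cont1 ha s).intervalIntegrable _ _)
      (j1.intervalIntegrable _ _)
    intro θ _
    rw [g_eq]
    have e1 := P_div_sq' v s θ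
    have e2 : f a (v (pt s θ)) ^ 2 ≤ m ^ 2 := by
      have := f_nonneg a (v (pt s θ))
      have := f_le ha.le (h.nonneg (pt s θ))
      have := hv θ
      gcongr
      linarith
    generalize (P v s θ ^ 2 + Q v s θ ^ 2) / W v (pt s θ) = w2 at *
    generalize P v s θ / W v (pt s θ) = w at *
    generalize f a (v (pt s θ)) = x at *
    generalize k a (v (pt s θ)) = y at *
    have e3 : l / 2 * (s * x ^ 2) + 1 / (2 * l) * (s * (y ^ 2 * w ^ 2)) - s * (x * y * w)
        = s * (l * x - y * w) ^ 2 / (2 * l) := by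
      field_simp
      ring
    have e4 : 0 ≤ s * (l * x - y * w) ^ 2 / (2 * l) := by positivity
    have e5 : l / 2 * (s * x ^ 2) ≤ l / 2 * (s * m ^ 2) := by gcongr
    have e6 : 1 / (2 * l) * (s * (y ^ 2 * w ^ 2)) ≤ 1 / (2 * l) * (s * (y ^ 2 * w2)) := by gcongr
    linarith
  have j2 : Continuous fun θ => 1 / (2 * l) * (s * (k a (v (pt s θ)) ^ 2 *
      ((P v s θ ^ 2 + Q v s θ ^ 2) / W v (pt s θ)))) := continuous_const.mul (h.cont2 ha s)
  rw [intervalIntegral.integral_add (continuous_const.intervalIntegrable _ _)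
    (j2.intervalIntegrable _ _), intervalIntegral.integral_const,
    intervalIntegral.integral_const_mul (1 / (2 * l)), ← h.A_eq ha] at h1
  have h2 : (2 * π - 0) • (l / 2 * (s * m ^ 2)) = E a v s / 2 := by
    rw [hl, smul_eq_mul]
    field_simp
    ring
  have h3 : 1 / (2 * l) * A a v s = π * s * m ^ 2 * A a v s / E a v s := by
    rw [hl]
    field_simp
  rw [h2, h3] at h1
  have h4 : E a v s / 2 ≤ π * s * m ^ 2 * A a v s / E a v s := by linarith
  rw [le_div_iff₀ hE] at h4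
  nlinarith

lemma Ext.ineq3 (h : Ext D v) {a b : ℝ} (hb : 0 < b) (hab : b < a) {s : ℝ} (hs : 0 ≤ s) :
    E b v s ≤ E a v s + 2 * π * (a - b) * s := by
  have ha : 0 < a := hb.trans hab
  have hpi := Real.pi_pos
  have h1 : E b v s - E a v s ≤ ∫ _ in (0 : ℝ)..(2 * π), s * (a - b) := by
    rw [E_eq, E_eq, ← intervalIntegral.integral_sub ((h.cont1 hb s).intervalIntegrable _ _)
      ((h.cont1 ha s).intervalIntegrable _ _)]
    have j1 : Continuous fun θ => (s * (g b (v (pt s θ)) * (P v s θ / W v (pt s θ)))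
        - s * (g a (v (pt s θ)) * (P v s θ / W v (pt s θ)))) := (h.cont1 hb s).sub (h.cont1 ha s)
    apply intervalIntegral.integral_mono_on (by positivity) (j1.intervalIntegrable _ _)
      (continuous_const.intervalIntegrable _ _)
    intro θ _
    have e1 := g_level hab.le (v (pt s θ))
    have e2 := P_div_le v s θ
    calc _ = s * ((g b (v (pt s θ)) - g a (v (pt s θ))) * (P v s θ / W v (pt s θ))) := by ring
      _ ≤ s * ((g b (v (pt s θ)) - g a (v (pt s θ))) * 1) :=
          mul_le_mul_of_nonneg_left (mul_le_mul_of_nonneg_left e2 e1.1) hs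
      _ ≤ s * (a - b) := by rw [mul_one]; exact mul_le_mul_of_nonneg_left e1.2 hs
  rw [intervalIntegral.integral_const, smul_eq_mul] at h1
  linarith

lemma Ext.monotone_E (h : Ext D v) (hc : 0 < c) : MonotoneOn (E c v) (Ici 0) := by
  apply monotoneOn_of_deriv_nonneg (convex_Ici 0)
  · exact fun s _ => (h.hasDerivAt_E hc s).continuousAt.continuousWithinAt
  · exact fun s _ => (h.hasDerivAt_E hc s).differentiableAt.differentiableWithinAt
  · intro s hs
    rw [interior_Ici] at hs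
    rw [(h.hasDerivAt_E hc s).deriv]
    exact h.A_nonneg hc (le_of_lt hs)

/-- if `E` vanishes at `ρ` then `g(v)` is constant along the radii -/
lemma Ext.radial (h : Ext D v) (hc : 0 < c) {ρ : ℝ} (hE : E c v ρ ≤ 0) {s : ℝ}
    (hs : 0 ≤ s) (hsρ : s ≤ ρ) (θ : ℝ) : g c (v (pt s θ)) = g c (v (pt ρ θ)) := by
  have hpi := Real.pi_pos
  have hEz : ∀ t, 0 ≤ t → t ≤ ρ → E c v t = 0 := by
    intro t ht htρ
    have h1 := h.monotone_E hc (mem_Ici.2 le_rfl) (mem_Ici.2 ht) ht
    have h2 := h.monotone_E hc (mem_Ici.2 ht) (mem_Ici.2 (ht.trans htρ)) htρ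
    rw [E_zero] at h1
    linarith
  have hAz : ∀ t, 0 < t → t < ρ → A c v t = 0 := by
    intro t ht htρ
    have h1 : HasDerivAt (E c v) 0 t := by
      refine (hasDerivAt_const t (0 : ℝ)).congr_of_eventuallyEq ?_
      filter_upwards [Ioo_mem_nhds ht htρ] with x hx
      exact hEz x hx.1.le hx.2.le
    exact (h.hasDerivAt_E hc t).unique h1
  have hder : ∀ t, 0 < t → t < ρ → k c (v (pt t θ)) ^ 2 * P v t θ = 0 := by
    intro t ht htρ
    have key : ∀ θ' ∈ Icc (0 : ℝ) (2 * π), ¬ 0 < t * (k c (v (pt t θ')) ^ 2 *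
        ((P v t θ' ^ 2 + Q v t θ' ^ 2) / W v (pt t θ'))) := by
      intro θ' hθ' hpos
      have h1 := intervalIntegral.integral_pos (by positivity : (0 : ℝ) < 2 * π)
        (h.cont2 hc t).continuousOn (fun x _ => by
          have := W_pos v (pt t x)
          positivity) ⟨θ', hθ', hpos⟩
      rw [← h.A_eq hc, hAz t ht htρ] at h1
      exact lt_irrefl _ h1
    have hper : Function.Periodic (fun θ' => t * (k c (v (pt t θ')) ^ 2 *
        ((P v t θ' ^ 2 + Q v t θ' ^ 2) / W v (pt t θ')))) (2 * π) := by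
      intro x
      have e1 : pt t (x + 2 * π) = pt t x := pt_periodic t x
      simp only [P, Q, e1, Real.cos_add_two_pi, Real.sin_add_two_pi]
    obtain ⟨y, hy, hyx⟩ := hper.exists_mem_Ico₀ (by positivity) θ
    have h2 := key y ⟨hy.1, hy.2.le⟩
    rw [not_lt] at h2
    have h2 := hyx.le.trans h2
    have hW := W_pos v (pt t θ)
    by_contra hne
    have h3 : k c (v (pt t θ)) ≠ 0 := fun h0 => hne (by rw [h0]; ring)
    have h4 : P v t θ ≠ 0 := fun h0 => hne (by rw [h0]; ring)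
    have h5 : 0 < k c (v (pt t θ)) ^ 2 := by positivity
    have h6 : 0 < P v t θ ^ 2 + Q v t θ ^ 2 := by positivity
    have h7 : 0 < t * (k c (v (pt t θ)) ^ 2 *
        ((P v t θ ^ 2 + Q v t θ ^ 2) / W v (pt t θ))) := by positivity
    linarith
  have hcont : Continuous fun t => g c (v (pt t θ)) :=
    continuous_iff_continuousAt.2 fun t => (h.hasDerivAt_gv hc t θ).continuousAt
  rcases hsρ.eq_or_lt with rfl | hlt
  · rfl
  · obtain ⟨x, hx, hx2⟩ := exists_hasDerivAt_eq_slope (fun t => g c (v (pt t θ)))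
      (fun t => k c (v (pt t θ)) ^ 2 * P v t θ) hlt hcont.continuousOn
      (fun x _ => h.hasDerivAt_gv hc x θ)
    rw [hder x (hs.trans_lt hx.1) hx.2] at hx2
    have h3 : ρ - s ≠ 0 := by linarith
    have h4 := (eq_div_iff h3).1 hx2
    linarith

/-- the maximum principle -/
lemma Ext.max_principle (h : Ext D v) {ρ m : ℝ} (hm : 0 < m) (hv : ∀ θ, v (pt ρ θ) ≤ m) {s : ℝ}
    (hs : 0 ≤ s) (hsρ : s ≤ ρ) (θ : ℝ) : v (pt s θ) ≤ m := by
  have hE : E m v ρ = 0 := by
    rw [E_eq]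
    have : ∀ θ, g m (v (pt ρ θ)) = 0 := fun θ => g_zero (hv θ)
    simp [this]
  have h1 := h.radial hm hE.le hs hsρ θ
  rw [g_zero (hv θ)] at h1
  by_contra hn
  push Not at hn
  exact (g_pos hn).ne' h1

/-- the energy is positive for large radii -/
lemma Ext.exists_pos (h : Ext D v) (hc : 0 < c) {z₀ z₁ : ℂ} (hz0 : c < v z₀) (hz1 : z₁ ∉ D) :
    ∃ ρ > 0, 0 < E c v ρ := by
  by_contra hn
  push Not at hn
  have key : ∀ z : ℂ, g c (v z) = g c (v 0) := by
    intro z
    obtain ⟨θ, hθ⟩ := exists_pt (z := z) rfl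
    have h1 := h.radial hc (hn (‖z‖ + 1) (by positivity)) (norm_nonneg z) (by linarith) θ
    have h2 := h.radial hc (hn (‖z‖ + 1) (by positivity)) le_rfl (by positivity) θ
    have h3 : pt 0 θ = 0 := by
      apply Complex.ext <;> simp [pt]
    rw [hθ] at h1
    rw [h3] at h2
    rw [h1, h2]
  have h1 := key z₁
  rw [h.zero _ hz1, g_zero hc.le] at h1
  have h2 := key z₀
  rw [← h1] at h2
  exact (g_pos hz0).ne' h2

/-- **growth for the extended function** -/
theorem Ext.growth (h : Ext D v) {z₀ : ℂ} (hz0 : 0 < v z₀) {r₁ : ℝ}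
    (hcirc : ∀ r, r₁ < r → ∃ z, z ∉ D ∧ ‖z‖ = r) :
    ∃ C > 0, ∃ r₀ > 0, ∀ r, r₀ < r → ∀ m, (∀ z : ℂ, ‖z‖ = r → v z ≤ m) → C * √r ≤ m := by
  have hpi := Real.pi_pos
  set a : ℝ := v z₀ / 2 with ha
  set b : ℝ := v z₀ / 4 with hb
  have ha0 : 0 < a := by positivity
  have hb0 : 0 < b := by positivity
  have hab : b < a := by rw [ha, hb]; linarith
  obtain ⟨z₁, hz1, -⟩ := hcirc (r₁ + 1) (by linarith)
  obtain ⟨ρ, hρ0, hρ⟩ := h.exists_pos ha0 (z₀ := z₀) (by rw [ha]; linarith) hz1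
  set r : ℝ := max ρ (r₁ + 1) with hr
  have hr0 : 0 < r := hρ0.trans_le (le_max_left _ _)
  have hrr : r₁ < r := lt_of_lt_of_le (by linarith) (le_max_right _ _)
  have hEr : 0 < E a v r := hρ.trans_le
    (h.monotone_E ha0 (mem_Ici.2 hρ0.le) (mem_Ici.2 hr0.le) (le_max_left _ _))
  have hkb := k_pos hab
  obtain ⟨c, hc0, hc⟩ := GrowthOde.linear_growth (E := E a v) (E1 := E b v) (A := A a v)
    (A1 := A b v) (κ := 1 / k b a ^ 2 / (2 * π)) (C := 2 * π * (a - b)) (r := r) (by positivity)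
    (by have : 0 < a - b := by linarith
        positivity) hr0
    (fun s _ => h.hasDerivAt_E ha0 s) (fun s _ => h.hasDerivAt_E hb0 s)
    (fun s hs => h.A_nonneg ha0 (hr0.le.trans hs)) (fun s hs => h.A_nonneg hb0 (hr0.le.trans hs))
    (fun s hs => by
      have h1 := h.monotone_E hb0 (mem_Ici.2 le_rfl) (mem_Ici.2 (hr0.le.trans hs))
        (hr0.le.trans hs)
      rwa [E_zero] at h1) hEr
    (fun s hs => by
      obtain ⟨z, hz, hzs⟩ := hcirc s (hrr.trans_le hs)
      obtain ⟨θ, hθ⟩ := exists_pt hzs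
      have h1 := h.ineq1 hb0 hab (s := s) (θ₀ := θ) (hr0.trans_le hs)
        (by rw [hθ]; exact h.zero z hz)
      refine h1.trans (le_of_eq ?_)
      congr 1
      ring)
    (fun s hs => h.ineq3 hb0 hab (hr0.le.trans hs))
  refine ⟨√(c / (8 * π)), by positivity, 2 * r, by positivity, fun t ht m hm => ?_⟩
  set R : ℝ := t / 2 with hR
  have hRr : r ≤ R := by rw [hR]; linarith
  have hR0 : 0 < R := hr0.trans_le hRr
  have htR : t = 2 * R := by rw [hR]; ring
  have hm0 : 0 ≤ m := by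
    have h1 : ‖pt t 0‖ = t := by rw [norm_pt, abs_of_pos (by linarith)]
    exact (h.nonneg _).trans (hm _ h1)
  have hmain : ∀ m', m < m' → c * R ≤ 4 * π * m' ^ 2 := by
    intro m' hm'
    have hm'0 : 0 < m' := hm0.trans_lt hm'
    have hvm : ∀ s, 0 ≤ s → s ≤ 2 * R → ∀ θ, v (pt s θ) ≤ m' := by
      intro s hs hs2 θ
      apply h.max_principle hm'0 (ρ := 2 * R) _ hs hs2 θ
      intro θ'
      refine (hm _ ?_).trans hm'.le
      rw [norm_pt, abs_of_pos (by linarith), htR]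
    have h1 := GrowthOde.upper_bound (E := E a v) (A := A a v) (B := 4 * π * R * m' ^ 2) (R := R)
      hR0 (by positivity) (fun s _ _ => h.hasDerivAt_E ha0 s)
      (fun s hs _ => hEr.trans_le (h.monotone_E ha0 (mem_Ici.2 hr0.le)
        (mem_Ici.2 (hR0.le.trans hs)) (hRr.trans hs)))
      (fun s hs hs2 => by
        have h2 := h.ineq2 ha0 (s := s) (m := m') (hR0.trans_le hs) hm'0
          (hvm s (hR0.le.trans hs) hs2) (hEr.trans_le (h.monotone_E ha0 (mem_Ici.2 hr0.le)
          (mem_Ici.2 (hR0.le.trans hs)) (hRr.trans hs)))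
        refine h2.trans (mul_le_mul_of_nonneg_right ?_ (h.A_nonneg ha0 (hR0.le.trans hs)))
        have h3 : 2 * π * s * m' ^ 2 ≤ 2 * π * (2 * R) * m' ^ 2 := by gcongr
        linarith)
    have h4 : 4 * π * R * m' ^ 2 / R = 4 * π * m' ^ 2 := by field_simp
    rw [h4] at h1
    exact (hc R hRr).trans h1
  have hlim : c * R ≤ 4 * π * m ^ 2 := by
    have h1 : Tendsto (fun m' : ℝ => 4 * π * m' ^ 2) (𝓝[>] m) (𝓝 (4 * π * m ^ 2)) :=
      ((by fun_prop : Continuous fun m' : ℝ => 4 * π * m' ^ 2).tendsto m).mono_left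
        nhdsWithin_le_nhds
    refine ge_of_tendsto h1 ?_
    filter_upwards [self_mem_nhdsWithin] with m' hm'
    exact hmain m' hm'
  rw [← Real.sqrt_mul (by positivity)]
  apply Real.sqrt_le_iff.2 ⟨hm0, ?_⟩
  rw [htR]
  calc c / (8 * π) * (2 * R) = c * R / (4 * π) := by field_simp; ring
    _ ≤ 4 * π * m ^ 2 / (4 * π) := by gcongr
    _ = m ^ 2 := by field_simp

/-- the extension by zero of a solution -/
lemma IsSolution.ext {u : ℂ → ℝ} (hD : IsOpen D) (h : IsSolution D u) :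
    Ext D (D.indicator u) := by
  have heq : ∀ z ∈ D, D.indicator u =ᶠ[𝓝 z] u := by
    intro z hz
    filter_upwards [hD.mem_nhds hz] with w hw
    exact indicator_of_mem hw u
  have hx : ∀ z ∈ D, ux (D.indicator u) z = ux u z := fun z hz => by
    rw [ux, ux, (heq z hz).fderiv_eq]
  have hy : ∀ z ∈ D, uy (D.indicator u) z = uy u z := fun z hz => by
    rw [uy, uy, (heq z hz).fderiv_eq]
  have hW : ∀ z ∈ D, W (D.indicator u) z = W u z := fun z hz => by
    rw [W, W, hx z hz, hy z hz]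
  refine ⟨hD, continuous_indicator h.bdry h.cont, ?_, ?_, ?_, ?_⟩
  · exact h.smooth.congr fun z hz => indicator_of_mem hz u
  · intro z hz
    rw [← h.mse z hz]
    congr 1
    · have : (fun w => ux (D.indicator u) w / W (D.indicator u) w)
          =ᶠ[𝓝 z] fun w => ux u w / W u w := by
        filter_upwards [hD.mem_nhds hz] with w hw
        rw [hx w hw, hW w hw]
      rw [this.fderiv_eq]
    · have : (fun w => uy (D.indicator u) w / W (D.indicator u) w)
          =ᶠ[𝓝 z] fun w => uy u w / W u w := by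
        filter_upwards [hD.mem_nhds hz] with w hw
        rw [hy w hw, hW w hw]
      rw [this.fderiv_eq]
  · intro z hz
    exact indicator_of_notMem hz u
  · intro z
    exact indicator_nonneg (fun w hw => (h.pos w hw).le) z

end aux

/-- If a nonempty open set `D` contains no circle `|z| = r` with `r > r₁`, then every solution of
`(∗)` in `D` satisfies `M(r) ≥ C √r` for large `r`. -/
theorem growth {D : Set ℂ} {u : ℂ → ℝ} (hD : IsOpen D) (hne : D.Nonempty) (h : IsSolution D u)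
    {r₁ : ℝ} (hcirc : ∀ r, r₁ < r → ∃ z, z ∉ D ∧ ‖z‖ = r) :
    ∃ C > 0, ∃ r₀ > 0, ∀ r, r₀ < r → C * √r ≤ M D u r := by
  have he := h.ext hD
  obtain ⟨z₀, hz0⟩ := hne
  have hz0' : 0 < D.indicator u z₀ := by
    rw [indicator_of_mem hz0]
    exact h.pos z₀ hz0
  obtain ⟨C, hC, r₀, hr0, hmain⟩ := he.growth hz0' hcirc
  refine ⟨C, hC, r₀, hr0, fun r hr => hmain r hr _ fun z hz => ?_⟩
  have hbdd : BddAbove (u '' {z | z ∈ D ∧ ‖z‖ = r}) := by
    obtain ⟨B, hB⟩ := (isCompact_sphere (0 : ℂ) r).exists_bound_of_continuousOn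
      he.cont.continuousOn
    refine ⟨B, ?_⟩
    rintro _ ⟨w, ⟨hw, hwr⟩, rfl⟩
    have h1 := hB w (by simpa using hwr)
    rw [indicator_of_mem hw] at h1
    exact (le_abs_self _).trans h1
  by_cases hzD : z ∈ D
  · rw [indicator_of_mem hzD]
    exact le_csSup hbdd ⟨z, ⟨hzD, hz⟩, rfl⟩
  · rw [indicator_of_notMem hzD]
    apply Real.sSup_nonneg
    rintro _ ⟨w, ⟨hw, -⟩, rfl⟩
    exact (h.pos w hw).le

/-- **Main theorem.**

(1) If `D` is an unbounded domain whose boundary is a Jordan arc `Γ = γ(ℝ)` (`γ` continuous and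
injective with `|γ(t)| → ∞` as `t → ±∞`), then every solution `u` of `(∗)` in `D` satisfies
`M(r) ≥ C √r` for all `r > r₀`, with some `C, r₀ > 0`.

(2) The same holds for every nonempty open set `D` for which there is `r₁` such that no circle
`|z| = r` with `r > r₁` is contained in `D`. -/
theorem result :
    (∀ (D : Set ℂ) (γ : ℝ → ℂ) (u : ℂ → ℝ), IsOpen D → IsConnected D → ¬ Bornology.IsBounded D →
      Continuous γ → Function.Injective γ → Tendsto (fun t => ‖γ t‖) atTop atTop →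
      Tendsto (fun t => ‖γ t‖) atBot atTop → frontier D = range γ → IsSolution D u →
      ∃ C > 0, ∃ r₀ > 0, ∀ r, r₀ < r → C * √r ≤ M D u r) ∧
    (∀ (D : Set ℂ) (u : ℂ → ℝ) (r₁ : ℝ), IsOpen D → D.Nonempty →
      (∀ r, r₁ < r → ∃ z, z ∉ D ∧ ‖z‖ = r) → IsSolution D u →
      ∃ C > 0, ∃ r₀ > 0, ∀ r, r₀ < r → C * √r ≤ M D u r) := by
  refine ⟨?_, fun D u r₁ hD hne hcirc h => growth hD hne h hcirc⟩
  intro D γ u hD hconn _ hγ _ hγtop _ hfr h
  refine growth hD hconn.nonempty h (r₁ := ‖γ 0‖) fun r hr => ?_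
  obtain ⟨t, ht⟩ := (hγtop.eventually_ge_atTop r).exists
  obtain ⟨τ, -, hτ⟩ := intermediate_value_uIcc (a := 0) (b := t)
    (hγ.norm.continuousOn) (mem_uIcc_of_le hr.le ht)
  refine ⟨γ τ, fun hmem => ?_, hτ⟩
  have h1 : γ τ ∈ frontier D := by
    rw [hfr]
    exact mem_range_self τ
  rw [hD.frontier_eq] at h1
  exact h1.2 hmem

end Pool.Agent.Results.MP_41eeae_an.SqrtGrowth
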